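import Pool.Agent.H68.BT.Main

/-!
# The Bodirsky–Pinsker conjecture for templates with a `k`-transitive automorphism group
-/

namespace Pool.Agent.Results.MP_6ab439_lc.TransitiveTemplates

open Pool.Agent.H68.BP

theorem result (k : ℕ) :
    (∀ (σ : Sig) (D : Type) (𝔸 : Str σ D), InScope 𝔸 →
      ∃ (σ' : Sig) (D' : Type) (𝔸' : Str σ' D'), TransitiveTemplate k 𝔸' ∧
        (ModelCompleteCore 𝔸 → ModelCompleteCore 𝔸') ∧
        (PPConstructsK3 𝔸' ↔ PPConstructsK3 𝔸) ∧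
        N793a5b8e.ManyOneReducible (CSP 𝔸) (CSP 𝔸')) ∧
    (BodirskyPinsker ↔ BodirskyPinskerTransitive k) ∧
    (BodirskyPinskerCores ↔ BodirskyPinskerTransitiveCores k) := by
  refine ⟨fun σ D 𝔸 h => Pool.Agent.H68.BT.main k 𝔸 h, ⟨?_, ?_⟩, ⟨?_, ?_⟩⟩
  · intro H σ D 𝔸 h1 h2
    exact H σ D 𝔸 (Pool.Agent.H68.BT.inScope_of_transitive h1) h2
  · intro H σ D 𝔸 h1 h2
    obtain ⟨σ', D', 𝔸', h3, -, h5, h6⟩ := Pool.Agent.H68.BT.main k 𝔸 h1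
    exact mem_P_of_manyOne h6 (H σ' D' 𝔸' h3 (fun h => h2 (h5.1 h)))
  · intro H σ D 𝔸 h1 h2 h3
    exact H σ D 𝔸 (Pool.Agent.H68.BT.inScope_of_transitive h1) h2 h3
  · intro H σ D 𝔸 h1 h2 h3
    obtain ⟨σ', D', 𝔸', h4, h5, h6, h7⟩ := Pool.Agent.H68.BT.main k 𝔸 h1
    exact mem_P_of_manyOne h7 (H σ' D' 𝔸' h4 (h5 h2) (fun h => h3 (h6.1 h)))

end Pool.Agent.Results.MP_6ab439_lc.TransitiveTemplates
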